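import Pool.Agent.K1H22.SR.Stm2

/-!
Project SR2 (helper22), piece COS2: the deletions in the powers of a word as paths with labels in the
group. There is one state; one edge reads a whole period (after the file of helper99 for part 1).
-/

set_option autoImplicit false

namespace Pool.Agent.K1H1.SR2

open Pool.Agent.K1H22.SR Pool.Agent.K1H22.SR2

variable {G : Type} [Group G] {B : Type} (f : B → G) (ω : List B)

open Classical in
/-- the edges -/
noncomputable def Ed : Finset (Unit × G × (ℕ × ℕ) × Unit) :=
  ω.sublists.toFinset.image fun u => ((), (u.map f).prod, (1, ω.length - u.length), ())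

theorem forw {q q' : Unit} {h : G} {v : ℕ × ℕ} (hp : GW (Ed f ω) q q' h v) :
    ∃ u : List B, u.Sublist (List.replicate v.1 ω).flatten ∧ h = (u.map f).prod ∧
      u.length + v.2 = v.1 * ω.length := by
  classical
  induction hp with
  | @nil p =>
    refine ⟨[], List.nil_sublist _, ?_, ?_⟩
    · simp
    · simp
  | @cons p p' q g h v w hE _ ih =>
    obtain ⟨u₂, hu₂, hh, hl⟩ := ih
    unfold Ed at hE
    rw [Finset.mem_image] at hE
    obtain ⟨u₁, hz, he⟩ := hE
    rw [List.mem_toFinset, List.mem_sublists] at hz
    simp only [Prod.mk.injEq] at he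
    obtain ⟨_, rfl, rfl, _⟩ := he
    refine ⟨u₁ ++ u₂, ?_, ?_, ?_⟩
    · have e1 : (List.replicate ((1, ω.length - u₁.length) + w).1 ω).flatten =
          ω ++ (List.replicate w.1 ω).flatten := by
        rw [Prod.fst_add, add_comm, List.replicate_succ, List.flatten_cons]
      rw [e1]
      exact hz.append hu₂
    · rw [hh, List.map_append, List.prod_append]
    · have := hz.length_le
      rw [Prod.snd_add, Prod.fst_add, List.length_append]
      show u₁.length + u₂.length + (ω.length - u₁.length + w.2) = (1 + w.1) * ω.length
      rw [add_mul, one_mul, ← hl]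
      omega

theorem back (n : ℕ) : ∀ (d : ℕ) (u : List B), u.Sublist (List.replicate n ω).flatten →
    u.length + d = n * ω.length → GW (Ed f ω) () () (u.map f).prod (n, d) := by
  classical
  induction n with
  | zero =>
    intro d u hu hl
    have hu' : u = [] := by
      rw [List.replicate_zero, List.flatten_nil] at hu
      exact List.sublist_nil.1 hu
    subst hu'
    have hd : d = 0 := by simpa using hl
    subst hd
    exact GW.nil
  | succ n ih =>
    intro d u hu hl
    rw [List.replicate_succ, List.flatten_cons, List.sublist_append_iff] at hu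
    obtain ⟨u₁, u₂, rfl, hu₁, hu₂⟩ := hu
    have h1 := hu₁.length_le
    have h2 := hu₂.length_le
    have h3 : (List.replicate n ω).flatten.length = n * ω.length := by
      simp
    rw [h3] at h2
    rw [List.length_append, Nat.succ_mul] at hl
    have h4 := ih (n * ω.length - u₂.length) u₂ hu₂ (by omega)
    have hE : ((), (u₁.map f).prod, (1, ω.length - u₁.length), ()) ∈ Ed f ω := by
      unfold Ed
      rw [Finset.mem_image]
      refine ⟨u₁, ?_, rfl⟩
      rw [List.mem_toFinset, List.mem_sublists]
      exact hu₁
    have h5 := GW.cons hE h4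
    have e1 : ((1, ω.length - u₁.length) + (n, n * ω.length - u₂.length) : ℕ × ℕ) =
        (n + 1, d) := by
      rw [Prod.mk_add_mk, Prod.mk.injEq]
      omega
    rw [e1] at h5
    rw [List.map_append, List.prod_append]
    exact h5

theorem t_COS2 : S_COS2 := by
  intro G B _ f ω _
  refine ⟨Unit, inferInstance, Ed f ω, (), fun n d => ?_⟩
  constructor
  · intro h
    obtain ⟨u, hu, hh, hl⟩ := forw f ω h
    exact ⟨u, hu, hh.symm, hl⟩
  · rintro ⟨u, hu, hg, hl⟩
    have h1 := back f ω n d u hu hl
    rw [hg] at h1
    exact h1

end Pool.Agent.K1H1.SR2
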